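import Mathlib

/-!
# Visual hulls of strictly separated compact convex sets

If `S_1, ..., S_m` are pairwise strictly separated nonempty compact convex sets in Euclidean
n-space and `m ≤ n`, then the visual hull of their union has exactly `m` connected components.
-/

open scoped Pointwise Topology

namespace Pool.Agent.Results.MP_1d6f1e_gt.CompactBodies

/-- Euclidean n-space. -/
abbrev E (n : ℕ) : Type := EuclideanSpace ℝ (Fin n)

/-- The visual hull of `S`: the set of all points `x` such that every line `x + m`, with `m` a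
one-dimensional linear subspace, meets `S`. -/
def visualHull {n : ℕ} (S : Set (E n)) : Set (E n) :=
  {x | ∀ m : Submodule ℝ (E n), Module.finrank ℝ m = 1 →
    (({x} + (m : Set (E n))) ∩ S).Nonempty}

/-- `S` and `T` lie in the two different open half-spaces bounded by some affine hyperplane
`{x | f x = c}`. -/
def StrictlySeparated {n : ℕ} (S T : Set (E n)) : Prop :=
  ∃ (f : E n →ₗ[ℝ] ℝ) (c : ℝ), f ≠ 0 ∧ (∀ x ∈ S, f x < c) ∧ (∀ y ∈ T, c < f y)

theorem mem_visualHull {n : ℕ} {S : Set (E n)} {x : E n} :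
    x ∈ visualHull S ↔ ∀ v : E n, v ≠ 0 → ∃ t : ℝ, x + t • v ∈ S := by
  constructor
  · intro h v hv
    obtain ⟨y, hy, hyS⟩ := h (Submodule.span ℝ {v}) (finrank_span_singleton hv)
    obtain ⟨x', hx', w, hw, rfl⟩ := hy
    rw [Set.mem_singleton_iff] at hx'
    subst hx'
    obtain ⟨t, rfl⟩ := Submodule.mem_span_singleton.1 hw
    exact ⟨t, hyS⟩
  · intro h m hm
    obtain ⟨v, hv0, hv⟩ := finrank_eq_one_iff'.1 hm
    have hv0' : (v : E n) ≠ 0 := fun h0 => hv0 (Subtype.ext h0)
    obtain ⟨t, ht⟩ := h v hv0'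
    exact ⟨x + t • (v : E n), ⟨x, rfl, t • (v : E n), m.smul_mem t v.2, rfl⟩, ht⟩

theorem subset_visualHull {n : ℕ} (T : Set (E n)) : T ⊆ visualHull T := by
  intro x hx
  rw [mem_visualHull]
  intro v _
  exact ⟨0, by simpa using hx⟩

variable {n m : ℕ}

/-! ### The ray through all bodies -/

/-- The auxiliary compact convex set in the product space. -/
def aux (S : Fin m → Set (E n)) (x : E n) : Set (Fin m → E n) :=
  {w | ∃ l ∈ stdSimplex ℝ (Fin m), ∃ s : Fin m → E n, (∀ i, s i ∈ S i) ∧
    ∀ i, w i = l i • (s i - x)}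

theorem aux_convex (S : Fin m → Set (E n)) (x : E n) (hS : ∀ i, Convex ℝ (S i)) :
    Convex ℝ (aux S x) := by
  rintro w ⟨l, hl, s, hs, hw⟩ w' ⟨l', hl', s', hs', hw'⟩ a b ha hb hab
  have key : ∀ i, ∃ r ∈ S i, a • (l i • (s i - x)) + b • (l' i • (s' i - x))
      = (a * l i + b * l' i) • (r - x) := by
    intro i
    have h1 : 0 ≤ a * l i := mul_nonneg ha (hl.1 i)
    have h2 : 0 ≤ b * l' i := mul_nonneg hb (hl'.1 i)
    rcases (add_nonneg h1 h2).eq_or_lt with h0 | h0
    · have e1 : a * l i = 0 := by linarith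
      have e2 : b * l' i = 0 := by linarith
      refine ⟨s i, hs i, ?_⟩
      rw [smul_smul, smul_smul, e1, e2, zero_smul, zero_smul, add_zero, add_zero, zero_smul]
    · refine ⟨(a * l i / (a * l i + b * l' i)) • s i + (b * l' i / (a * l i + b * l' i)) • s' i,
        hS i (hs i) (hs' i) (div_nonneg h1 h0.le) (div_nonneg h2 h0.le) (by
          rw [← add_div, div_self h0.ne']), ?_⟩
      have e1 : (a * l i + b * l' i) • ((a * l i / (a * l i + b * l' i)) • s i
          + (b * l' i / (a * l i + b * l' i)) • s' i - x)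
          = (a * l i) • s i + (b * l' i) • s' i - (a * l i + b * l' i) • x := by
        rw [smul_sub, smul_add, smul_smul, smul_smul, mul_div_cancel₀ _ h0.ne',
          mul_div_cancel₀ _ h0.ne']
      rw [e1]
      module
  choose r hr hr' using key
  refine ⟨fun i => a * l i + b * l' i, ⟨fun i => add_nonneg (mul_nonneg ha (hl.1 i))
    (mul_nonneg hb (hl'.1 i)), ?_⟩, r, hr, fun i => ?_⟩
  · rw [Finset.sum_add_distrib, ← Finset.mul_sum, ← Finset.mul_sum, hl.2, hl'.2]
    linarith
  · rw [← hr' i]
    simp [hw i, hw' i]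

theorem aux_compact (S : Fin m → Set (E n)) (x : E n) (hS : ∀ i, IsCompact (S i)) :
    IsCompact (aux S x) := by
  have h1 : IsCompact ((stdSimplex ℝ (Fin m)) ×ˢ (Set.pi Set.univ S)) :=
    (isCompact_stdSimplex ℝ (Fin m)).prod (isCompact_univ_pi hS)
  have h2 : Continuous (fun p : (Fin m → ℝ) × (Fin m → E n) =>
      (fun i => p.1 i • (p.2 i - x) : Fin m → E n)) := by fun_prop
  have h3 : aux S x = (fun p : (Fin m → ℝ) × (Fin m → E n) =>
      (fun i => p.1 i • (p.2 i - x) : Fin m → E n)) ''
        ((stdSimplex ℝ (Fin m)) ×ˢ (Set.pi Set.univ S)) := by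
    ext w
    constructor
    · rintro ⟨l, hl, s, hs, hw⟩
      exact ⟨(l, s), ⟨hl, fun i _ => hs i⟩, funext fun i => (hw i).symm⟩
    · rintro ⟨⟨l, s⟩, ⟨hl, hs⟩, rfl⟩
      exact ⟨l, hl, s, fun i => hs i (Set.mem_univ i), fun i => rfl⟩
  rw [h3]
  exact h1.image h2

/-- If `x` is a point of the visual hull outside all bodies, some ray from `x` meets all of
them. -/
theorem exists_ray (hmn : m ≤ n) (hn : 1 ≤ n) (S : Fin m → Set (E n))
    (hne : ∀ i, (S i).Nonempty) (hcomp : ∀ i, IsCompact (S i)) (hconv : ∀ i, Convex ℝ (S i))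
    {x : E n} (hx : x ∈ visualHull (⋃ i, S i)) (hxS : ∀ i, x ∉ S i) :
    ∃ (u : E n) (t : Fin m → ℝ), ∀ i, 0 < t i ∧ x + t i • u ∈ S i := by
  rw [mem_visualHull] at hx
  -- there is at least one body
  have hm : 0 < m := by
    obtain ⟨v, hv⟩ : ∃ v : E n, v ≠ 0 := by
      have : Nontrivial (E n) := by
        have : Nonempty (Fin n) := ⟨⟨0, hn⟩⟩
        infer_instance
      exact exists_ne 0
    obtain ⟨t, ht⟩ := hx v hv
    obtain ⟨i, -⟩ := Set.mem_iUnion.1 ht
    exact i.pos
  let D : Submodule ℝ (Fin m → E n) :=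
    { carrier := {w | ∀ i j, w i = w j}
      add_mem' := fun {a b} ha hb i j => by
        show a i + b i = a j + b j
        rw [ha i j, hb i j]
      zero_mem' := fun i j => rfl
      smul_mem' := fun c a ha i j => by
        show c • a i = c • a j
        rw [ha i j] }
  by_cases hdisj : Disjoint (aux S x) (D : Set (Fin m → E n))
  · exfalso
    have hDc : IsClosed (D : Set (Fin m → E n)) := D.closed_of_finiteDimensional
    obtain ⟨f, u, v, hf1, huv, hf2⟩ := geometric_hahn_banach_compact_closed
      (aux_convex S x hconv) (aux_compact S x hcomp) D.convex hDc hdisj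
    have hv0 : v < 0 := by simpa using hf2 0 D.zero_mem
    have hfD : ∀ w ∈ D, f w = 0 := by
      intro w hw
      by_contra hfw
      have h1 := hf2 ((v / f w) • w) (D.smul_mem _ hw)
      rw [map_smul, smul_eq_mul, div_mul_cancel₀ _ hfw] at h1
      exact lt_irrefl _ h1
    -- the component functionals
    let F : Fin m → (E n →ₗ[ℝ] ℝ) := fun i =>
      (f : (Fin m → E n) →ₗ[ℝ] ℝ).comp (LinearMap.single ℝ (fun _ : Fin m => E n) i)
    have hF : ∀ w : Fin m → E n, f w = ∑ i, F i (w i) := by
      intro w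
      have : w = ∑ i, (Pi.single i (w i) : Fin m → E n) := by
        rw [Finset.univ_sum_single]
      conv_lhs => rw [this, map_sum]
      rfl
    have hFneg : ∀ i, ∀ s ∈ S i, F i (s - x) < 0 := by
      intro i s hs
      choose s' hs' using hne
      have hmem : (Pi.single i (s - x) : Fin m → E n) ∈ aux S x := by
        refine ⟨Pi.single i 1, ?_, fun j => if h : j = i then s else s' j, ?_, ?_⟩
        · exact single_mem_stdSimplex ℝ i
        · intro j
          by_cases h : j = i
          · subst h; simpa using hs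
          · simpa [h] using hs' j
        · intro j
          by_cases h : j = i
          · subst h; simp
          · simp [h]
      have := hf1 _ hmem
      have h2 : F i (s - x) = f (Pi.single i (s - x)) := rfl
      rw [h2]
      linarith
    -- common kernel vector
    obtain ⟨z, hz0, hz⟩ : ∃ z : E n, z ≠ 0 ∧ ∀ i, F i z = 0 := by
      let i₀ : Fin m := ⟨0, hm⟩
      let G : E n →ₗ[ℝ] ({i : Fin m // i ≠ i₀} → ℝ) := LinearMap.pi fun i => F i.1
      have hG : LinearMap.ker G ≠ ⊥ := by
        apply LinearMap.ker_ne_bot_of_finrank_lt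
        rw [Module.finrank_fintype_fun_eq_card, finrank_euclideanSpace_fin,
          Fintype.card_subtype_compl, Fintype.card_fin]
        simp
        omega
      obtain ⟨z, hz, hz0⟩ := (Submodule.ne_bot_iff _).1 hG
      have hzi : ∀ i, i ≠ i₀ → F i z = 0 := by
        intro i hi
        have := congrFun (LinearMap.mem_ker.1 hz) ⟨i, hi⟩
        exact this
      refine ⟨z, hz0, fun i => ?_⟩
      by_cases hi : i = i₀
      · have h1 := hfD (fun _ => z) (fun _ _ => rfl)
        rw [hF, ← Finset.add_sum_erase _ _ (Finset.mem_univ i₀)] at h1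
        rw [Finset.sum_eq_zero (fun j hj => hzi j (Finset.ne_of_mem_erase hj))] at h1
        rw [hi]
        simpa using h1
      · exact hzi i hi
    obtain ⟨t, ht⟩ := hx z hz0
    obtain ⟨i, hi⟩ := Set.mem_iUnion.1 ht
    have h1 := hFneg i _ hi
    rw [add_sub_cancel_left, map_smul, hz i, smul_zero] at h1
    exact lt_irrefl _ h1
  · rw [Set.not_disjoint_iff] at hdisj
    obtain ⟨w, ⟨l, hl, s, hs, hw⟩, hwD⟩ := hdisj
    have hwD' : ∀ i j, w i = w j := hwD
    obtain ⟨k, hk⟩ : ∃ k, 0 < l k := by
      by_contra hcon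
      push Not at hcon
      have : ∑ i, l i ≤ 0 := Finset.sum_nonpos fun i _ => hcon i
      rw [hl.2] at this
      linarith
    have hw0 : w k ≠ 0 := by
      rw [hw k]
      refine smul_ne_zero hk.ne' (sub_ne_zero.2 ?_)
      intro h
      exact hxS k (h ▸ hs k)
    have hpos : ∀ j, 0 < l j := by
      intro j
      refine lt_of_le_of_ne (hl.1 j) fun h0 => ?_
      apply hw0
      rw [hwD' k j, hw j, ← h0, zero_smul]
    refine ⟨w k, fun j => (l j)⁻¹, fun j => ⟨inv_pos.2 (hpos j), ?_⟩⟩
    show x + (l j)⁻¹ • w k ∈ S j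
    rw [hwD' k j, hw j, smul_smul, inv_mul_cancel₀ (hpos j).ne', one_smul, add_sub_cancel]
    exact hs j

/-- Moving along such a ray, one stays in the visual hull until the first body is reached. -/
theorem mem_along_ray (S : Fin m → Set (E n)) (hconv : ∀ i, Convex ℝ (S i))
    {x u : E n} {t : Fin m → ℝ} (hx : x ∈ visualHull (⋃ i, S i))
    (ht : ∀ i, 0 < t i ∧ x + t i • u ∈ S i) {τ : ℝ} (h0 : 0 ≤ τ) (h1 : ∀ i, τ ≤ t i) :
    x + τ • u ∈ visualHull (⋃ i, S i) := by
  rw [mem_visualHull] at hx ⊢
  intro v hv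
  obtain ⟨s, hs⟩ := hx v hv
  obtain ⟨i, hi⟩ := Set.mem_iUnion.1 hs
  obtain ⟨hti, hiu⟩ := ht i
  refine ⟨(1 - τ / t i) * s, Set.mem_iUnion.2 ⟨i, ?_⟩⟩
  have hθ1 : τ / t i ≤ 1 := (div_le_one hti).2 (h1 i)
  have hθ0 : 0 ≤ τ / t i := div_nonneg h0 hti.le
  have := hconv i hi hiu (sub_nonneg.2 hθ1) hθ0 (by ring)
  have e : (1 - τ / t i) • (x + s • v) + (τ / t i) • (x + t i • u)
      = x + τ • u + ((1 - τ / t i) * s) • v := by
    rw [smul_add, smul_add, smul_smul, smul_smul, div_mul_cancel₀ _ hti.ne', sub_smul, one_smul]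
    abel
  rwa [e] at this

/-- If `S_1, ..., S_m` are pairwise strictly separated nonempty compact convex sets in Euclidean
n-space, `1 ≤ n` and `m ≤ n`, the visual hull of their union has exactly `m` components. -/
theorem result : ∀ n m : ℕ, 1 ≤ n → m ≤ n → ∀ S : Fin m → Set (E n),
    (∀ i, (S i).Nonempty ∧ IsCompact (S i) ∧ Convex ℝ (S i)) →
    (∀ i j, i ≠ j → StrictlySeparated (S i) (S j)) →
    ENat.card (ConnectedComponents (visualHull (⋃ i, S i))) = m := by
  classical
  intro n m hn hmn S hS hsep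
  have hne := fun i => (hS i).1
  have hcomp := fun i => (hS i).2.1
  have hconv := fun i => (hS i).2.2
  -- separating hyperplanes, chosen for each ordered pair
  have hsep' : ∀ i j, ∃ (f : E n →ₗ[ℝ] ℝ) (c : ℝ), i ≠ j →
      (∀ x ∈ S i, f x < c) ∧ (∀ y ∈ S j, c < f y) := by
    intro i j
    by_cases h : i = j
    · exact ⟨0, 0, fun h' => absurd h h'⟩
    · obtain ⟨f, c, -, h1, h2⟩ := hsep i j h
      exact ⟨f, c, fun _ => ⟨h1, h2⟩⟩
  choose f c hfc using hsep'
  -- the regions
  let W : Fin m → Set (E n) := fun k => {x | ∀ j, j ≠ k → f k j x < c k j}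
  have hWopen : ∀ k, IsOpen (W k) := by
    intro k
    have : W k = ⋂ j : Fin m, {x | j ≠ k → f k j x < c k j} := by
      ext x; simp [W]
    rw [this]
    apply isOpen_iInter_of_finite
    intro j
    by_cases h : j = k
    · simp [h]
    · simp only [ne_eq, h, not_false_eq_true, forall_true_left]
      exact isOpen_lt (f k j).continuous_of_finiteDimensional continuous_const
  set P := visualHull (⋃ i, S i) with hP
  have hSP : ∀ k, S k ⊆ P := fun k => (Set.subset_iUnion S k).trans (subset_visualHull _)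
  -- the main alternative
  have main : ∀ x ∈ P, ∃ k, x ∈ W k ∧ (∀ j, j ≠ k → x ∉ W j) ∧
      ∃ s ∈ S k, segment ℝ x s ⊆ P := by
    intro x hx
    by_cases hxS : ∃ k, x ∈ S k
    · obtain ⟨k, hk⟩ := hxS
      refine ⟨k, fun j hj => (hfc k j hj.symm).1 x hk, fun j hj hxj => ?_, x, hk, ?_⟩
      · have h1 := hxj k hj.symm
        have h2 := (hfc j k hj).2 x hk
        linarith
      · rw [segment_same]
        exact Set.singleton_subset_iff.2 hx
    · push Not at hxS
      obtain ⟨u, t, ht⟩ := exists_ray hmn hn S hne hcomp hconv hx hxS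
      have hm : Nonempty (Fin m) := by
        by_contra hcon
        have hv : ∃ v : E n, v ≠ 0 := by
          have : Nonempty (Fin n) := ⟨⟨0, hn⟩⟩
          exact exists_ne 0
        obtain ⟨v, hv⟩ := hv
        obtain ⟨t, ht⟩ := (mem_visualHull.1 hx) v hv
        obtain ⟨i, -⟩ := Set.mem_iUnion.1 ht
        exact hcon ⟨i⟩
      obtain ⟨k, hk⟩ := Finite.exists_min t
      -- for j ≠ k, k is hit strictly before j
      have hlt : ∀ j, j ≠ k → t k < t j := by
        intro j hj
        refine lt_of_le_of_ne (hk j) fun h => ?_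
        have h1 := (hfc k j hj.symm).1 _ (ht k).2
        have h2 := (hfc k j hj.symm).2 _ (ht j).2
        rw [h] at h1
        linarith
      refine ⟨k, fun j hj => ?_, fun j hj hxj => ?_, x + t k • u, (ht k).2, ?_⟩
      · have h1 := (hfc k j hj.symm).1 _ (ht k).2
        have h2 := (hfc k j hj.symm).2 _ (ht j).2
        rw [map_add, map_smul, smul_eq_mul] at h1 h2
        have h3 := hlt j hj
        have h4 := (ht k).1
        have h5 : 0 < f k j u := by
          by_contra hcon
          nlinarith [not_lt.1 hcon]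
        nlinarith [mul_pos h4 h5]
      · have h1 := (hfc j k hj).1 _ (ht j).2
        have h2 := (hfc j k hj).2 _ (ht k).2
        rw [map_add, map_smul, smul_eq_mul] at h1 h2
        have h3 := hlt j hj
        have h4 := (ht k).1
        have h5 : f j k u < 0 := by
          by_contra hcon
          nlinarith [not_lt.1 hcon]
        have h6 := hxj k hj.symm
        nlinarith [mul_pos h4 (neg_pos.2 h5)]
      · rintro z hz
        rw [segment_eq_image'] at hz
        obtain ⟨θ, hθ, rfl⟩ := hz
        have e : x + θ • (x + t k • u - x) = x + (θ * t k) • u := by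
          rw [add_sub_cancel_left, smul_smul]
        show x + θ • (x + t k • u - x) ∈ P
        rw [e]
        refine mem_along_ray S hconv hx ht (mul_nonneg hθ.1 (ht k).1.le) fun i => ?_
        calc θ * t k ≤ 1 * t k := mul_le_mul_of_nonneg_right hθ.2 (ht k).1.le
          _ = t k := one_mul _
          _ ≤ t i := hk i
  -- the classifying function
  have main' : ∀ x : P, ∃ k, (x : E n) ∈ W k ∧ (∀ j, j ≠ k → (x : E n) ∉ W j) ∧
      ∃ s ∈ S k, segment ℝ (x : E n) s ⊆ P := fun x => main x x.2
  choose κ hκ1 hκ2 hκ3 using main'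
  have hκu : ∀ x : P, ∀ k, (x : E n) ∈ W k → κ x = k := by
    intro x k hk
    by_contra hne'
    exact hκ2 x k (fun h => hne' h.symm) hk
  have hloc : IsLocallyConstant κ := by
    rw [IsLocallyConstant.iff_eventually_eq]
    intro x
    have hopen : IsOpen {y : P | (y : E n) ∈ W (κ x)} :=
      (hWopen (κ x)).preimage continuous_subtype_val
    filter_upwards [hopen.mem_nhds (hκ1 x)] with y hy
    exact hκu y _ hy
  have hcont := hloc.continuous
  have hbij : Function.Bijective hcont.connectedComponentsLift := by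
    constructor
    · intro a b hab
      obtain ⟨x, rfl⟩ := ConnectedComponents.surjective_coe a
      obtain ⟨y, rfl⟩ := ConnectedComponents.surjective_coe b
      have hxy : κ x = κ y := hab
      obtain ⟨s, hs, hsx⟩ := hκ3 x
      obtain ⟨s', hs', hsy⟩ := hκ3 y
      rw [← hxy] at hs'
      have j1 : JoinedIn P (x : E n) s := JoinedIn.of_segment_subset hsx
      have j2 : JoinedIn P s s' := JoinedIn.of_segment_subset
        (((hconv _).segment_subset hs hs').trans (hSP _))
      have j3 : JoinedIn P (y : E n) s' := JoinedIn.of_segment_subset hsy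
      have j4 : JoinedIn P (x : E n) y := (j1.trans j2).trans j3.symm
      have j5 : Joined x y := by
        have := (joinedIn_iff_joined x.2 y.2).1 j4
        simpa using this
      rw [ConnectedComponents.coe_eq_coe']
      exact pathComponent_subset_component y (j5.symm)
    · intro k
      obtain ⟨s, hs⟩ := hne k
      refine ⟨ConnectedComponents.mk ⟨s, hSP k hs⟩, ?_⟩
      show κ ⟨s, hSP k hs⟩ = k
      exact hκu ⟨s, hSP k hs⟩ k fun j hj => (hfc k j hj.symm).1 s hs
  have := ENat.card_congr (Equiv.ofBijective _ hbij)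
  rw [this]
  simp

end Pool.Agent.Results.MP_1d6f1e_gt.CompactBodies
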