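import Mathlib

/-!
# Three strictly separated bodies in space whose visual hull has at least four components

The bodies (bounded convex sets with nonempty interior) are not closed; the origin is an isolated
point of the visual hull.
-/

open scoped Pointwise Topology

namespace Pool.Agent.Results.MP_1d6f1e_gt.FourComponents

/-- Euclidean n-space. -/
abbrev E (n : ℕ) : Type := EuclideanSpace ℝ (Fin n)

/-- The visual hull of `S`: the set of all points `x` such that every line `x + m`, with `m` a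
one-dimensional linear subspace, meets `S`. -/
def visualHull {n : ℕ} (S : Set (E n)) : Set (E n) :=
  {x | ∀ m : Submodule ℝ (E n), Module.finrank ℝ m = 1 →
    (({x} + (m : Set (E n))) ∩ S).Nonempty}

/-- A body: a bounded convex set with nonempty interior. -/
def IsBody {n : ℕ} (S : Set (E n)) : Prop :=
  Bornology.IsBounded S ∧ Convex ℝ S ∧ (interior S).Nonempty

/-- `S` and `T` lie in the two different open half-spaces bounded by some affine hyperplane
`{x | f x = c}`. -/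
def StrictlySeparated {n : ℕ} (S T : Set (E n)) : Prop :=
  ∃ (f : E n →ₗ[ℝ] ℝ) (c : ℝ), f ≠ 0 ∧ (∀ x ∈ S, f x < c) ∧ (∀ y ∈ T, c < f y)

theorem mem_visualHull {n : ℕ} {S : Set (E n)} {x : E n} :
    x ∈ visualHull S ↔ ∀ v : E n, v ≠ 0 → ∃ t : ℝ, x + t • v ∈ S := by
  constructor
  · intro h v hv
    obtain ⟨y, hy, hyS⟩ := h (Submodule.span ℝ {v}) (finrank_span_singleton hv)
    obtain ⟨x', hx', w, hw, rfl⟩ := hy
    rw [Set.mem_singleton_iff] at hx'
    subst hx'
    obtain ⟨t, rfl⟩ := Submodule.mem_span_singleton.1 hw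
    exact ⟨t, hyS⟩
  · intro h m hm
    obtain ⟨v, hv0, hv⟩ := finrank_eq_one_iff'.1 hm
    have hv0' : (v : E n) ≠ 0 := fun h0 => hv0 (Subtype.ext h0)
    obtain ⟨t, ht⟩ := h v hv0'
    exact ⟨x + t • (v : E n), ⟨x, rfl, t • (v : E n), m.smul_mem t v.2, rfl⟩, ht⟩

/-- First body: nearest to the origin, above the plane `z = 0`. -/
def S1 : Set (E 3) := {p | 0 ≤ p 1 ∧ 0 ≤ p 0 + 2 * p 1 ∧ 1 ≤ p 0 + 3 * p 1 + p 2 ∧
  p 0 + 3 * p 1 + p 2 ≤ 5 / 4 ∧ (0 < p 2 ∨ (p 2 = 0 ∧ p 0 ≤ 0 ∧ 0 ≤ p 0 + p 1))}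

/-- Second body: below the plane `z = 0`. -/
def S2 : Set (E 3) := {p | p 2 ≤ 0 ∧ -p 0 ≤ p 1 ∧ p 1 ≤ p 0 ∧ 2 ≤ p 0 - p 2 ∧
  p 0 - p 2 ≤ 21 / 10}

/-- Third body: farthest from the origin, above the plane `z = 0`. -/
def S3 : Set (E 3) := {p | p 1 ≤ 0 ∧ 0 ≤ p 0 - 2 * p 1 ∧ 12 ≤ p 0 - 4 * p 1 + 4 * p 2 ∧
  p 0 - 4 * p 1 + 4 * p 2 ≤ 13 ∧ (0 < p 2 ∨ (p 2 = 0 ∧ p 0 ≤ 0 ∧ p 1 ≤ p 0))}

theorem isOpen_and {X : Type*} [TopologicalSpace X] {P Q : X → Prop} (hP : IsOpen {x | P x})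
    (hQ : IsOpen {x | Q x}) : IsOpen {x | P x ∧ Q x} := hP.inter hQ

/-! ### The three sets are bodies -/

theorem bounded_of {S : Set (E 3)} (h : ∀ p ∈ S, |p 0| ≤ 50 ∧ |p 1| ≤ 50 ∧ |p 2| ≤ 50) :
    Bornology.IsBounded S := by
  refine (Metric.isBounded_iff_subset_closedBall (0 : E 3)).2 ⟨100, fun p hp => ?_⟩
  obtain ⟨h0, h1, h2⟩ := h p hp
  rw [mem_closedBall_zero_iff, EuclideanSpace.norm_eq, Real.sqrt_le_left (by norm_num),
    Fin.sum_univ_three]
  simp only [Real.norm_eq_abs]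
  have := abs_nonneg (p 0)
  have := abs_nonneg (p 1)
  have := abs_nonneg (p 2)
  nlinarith

theorem isBody_S1 : IsBody S1 := by
  refine ⟨bounded_of ?_, ?_, ?_⟩
  · rintro p ⟨h1, h2, h3, h4, h5⟩
    have hz : 0 ≤ p 2 := by rcases h5 with h | h; exacts [h.le, h.1.ge]
    refine ⟨abs_le.2 ⟨?_, ?_⟩, abs_le.2 ⟨?_, ?_⟩, abs_le.2 ⟨?_, ?_⟩⟩ <;> linarith
  · rintro p ⟨h1, h2, h3, h4, h5⟩ q ⟨k1, k2, k3, k4, k5⟩ a b ha hb hab
    have hzp : 0 ≤ p 2 := by rcases h5 with h | h; exacts [h.le, h.1.ge]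
    have hzq : 0 ≤ q 2 := by rcases k5 with h | h; exacts [h.le, h.1.ge]
    have hb' : b = 1 - a := by linarith
    refine ⟨?_, ?_, ?_, ?_, ?_⟩
    · simp only [PiLp.add_apply, PiLp.smul_apply, smul_eq_mul]; nlinarith [mul_nonneg ha h1, mul_nonneg hb k1]
    · simp only [PiLp.add_apply, PiLp.smul_apply, smul_eq_mul]; nlinarith [mul_nonneg ha h2, mul_nonneg hb k2]
    · simp only [PiLp.add_apply, PiLp.smul_apply, smul_eq_mul]
      nlinarith [mul_le_mul_of_nonneg_left h3 ha, mul_le_mul_of_nonneg_left k3 hb]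
    · simp only [PiLp.add_apply, PiLp.smul_apply, smul_eq_mul]
      nlinarith [mul_le_mul_of_nonneg_left h4 ha, mul_le_mul_of_nonneg_left k4 hb]
    · simp only [PiLp.add_apply, PiLp.smul_apply, smul_eq_mul]
      rcases ha.eq_or_lt with ha0 | ha0
      · have hb1 : b = 1 := by linarith
        subst hb1
        rw [← ha0]
        simpa using k5
      rcases hb.eq_or_lt with hb0 | hb0
      · have ha1 : a = 1 := by linarith
        subst ha1
        rw [← hb0]
        simpa using h5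
      rcases h5 with h5 | h5
      · left; nlinarith [mul_pos ha0 h5, mul_nonneg hb hzq]
      rcases k5 with k5 | k5
      · left; nlinarith [mul_pos hb0 k5, mul_nonneg ha hzp]
      · right
        refine ⟨by rw [h5.1, k5.1]; ring, ?_, ?_⟩
        · nlinarith [mul_nonneg ha (neg_nonneg.2 h5.2.1), mul_nonneg hb (neg_nonneg.2 k5.2.1)]
        · nlinarith [mul_nonneg ha h5.2.2, mul_nonneg hb k5.2.2]
  · refine ⟨!₂[0, 1 / 10, 9 / 10], ?_⟩
    refine interior_maximal (t := {p : E 3 | 0 < p 1 ∧ 0 < p 0 + 2 * p 1 ∧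
      1 < p 0 + 3 * p 1 + p 2 ∧ p 0 + 3 * p 1 + p 2 < 5 / 4 ∧ 0 < p 2}) ?_ ?_ ?_
    · rintro p ⟨h1, h2, h3, h4, h5⟩
      exact ⟨h1.le, h2.le, h3.le, h4.le, Or.inl h5⟩
    · refine isOpen_and ?_ (isOpen_and ?_ (isOpen_and ?_ (isOpen_and ?_ ?_))) <;>
        exact isOpen_lt (by fun_prop) (by fun_prop)
    · refine ⟨?_, ?_, ?_, ?_, ?_⟩ <;> simp <;> norm_num

theorem isBody_S2 : IsBody S2 := by
  refine ⟨bounded_of ?_, ?_, ?_⟩
  · rintro p ⟨h1, h2, h3, h4, h5⟩
    refine ⟨abs_le.2 ⟨?_, ?_⟩, abs_le.2 ⟨?_, ?_⟩, abs_le.2 ⟨?_, ?_⟩⟩ <;> linarith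
  · rintro p ⟨h1, h2, h3, h4, h5⟩ q ⟨k1, k2, k3, k4, k5⟩ a b ha hb hab
    have hb' : b = 1 - a := by linarith
    refine ⟨?_, ?_, ?_, ?_, ?_⟩
    · simp only [PiLp.add_apply, PiLp.smul_apply, smul_eq_mul]
      nlinarith [mul_le_mul_of_nonneg_left h1 ha, mul_le_mul_of_nonneg_left k1 hb]
    · simp only [PiLp.add_apply, PiLp.smul_apply, smul_eq_mul]
      nlinarith [mul_le_mul_of_nonneg_left h2 ha, mul_le_mul_of_nonneg_left k2 hb]
    · simp only [PiLp.add_apply, PiLp.smul_apply, smul_eq_mul]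
      nlinarith [mul_le_mul_of_nonneg_left h3 ha, mul_le_mul_of_nonneg_left k3 hb]
    · simp only [PiLp.add_apply, PiLp.smul_apply, smul_eq_mul]
      nlinarith [mul_le_mul_of_nonneg_left h4 ha, mul_le_mul_of_nonneg_left k4 hb]
    · simp only [PiLp.add_apply, PiLp.smul_apply, smul_eq_mul]
      nlinarith [mul_le_mul_of_nonneg_left h5 ha, mul_le_mul_of_nonneg_left k5 hb]
  · refine ⟨!₂[1, 0, -(21 / 20)], ?_⟩
    refine interior_maximal (t := {p : E 3 | p 2 < 0 ∧ -p 0 < p 1 ∧ p 1 < p 0 ∧ 2 < p 0 - p 2 ∧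
      p 0 - p 2 < 21 / 10}) ?_ ?_ ?_
    · rintro p ⟨h1, h2, h3, h4, h5⟩
      exact ⟨h1.le, h2.le, h3.le, h4.le, h5.le⟩
    · refine isOpen_and ?_ (isOpen_and ?_ (isOpen_and ?_ (isOpen_and ?_ ?_))) <;>
        exact isOpen_lt (by fun_prop) (by fun_prop)
    · refine ⟨?_, ?_, ?_, ?_, ?_⟩ <;> simp <;> norm_num

theorem isBody_S3 : IsBody S3 := by
  refine ⟨bounded_of ?_, ?_, ?_⟩
  · rintro p ⟨h1, h2, h3, h4, h5⟩
    have hz : 0 ≤ p 2 := by rcases h5 with h | h; exacts [h.le, h.1.ge]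
    refine ⟨abs_le.2 ⟨?_, ?_⟩, abs_le.2 ⟨?_, ?_⟩, abs_le.2 ⟨?_, ?_⟩⟩ <;> linarith
  · rintro p ⟨h1, h2, h3, h4, h5⟩ q ⟨k1, k2, k3, k4, k5⟩ a b ha hb hab
    have hzp : 0 ≤ p 2 := by rcases h5 with h | h; exacts [h.le, h.1.ge]
    have hzq : 0 ≤ q 2 := by rcases k5 with h | h; exacts [h.le, h.1.ge]
    have hb' : b = 1 - a := by linarith
    refine ⟨?_, ?_, ?_, ?_, ?_⟩
    · simp only [PiLp.add_apply, PiLp.smul_apply, smul_eq_mul]
      nlinarith [mul_le_mul_of_nonneg_left h1 ha, mul_le_mul_of_nonneg_left k1 hb]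
    · simp only [PiLp.add_apply, PiLp.smul_apply, smul_eq_mul]
      nlinarith [mul_nonneg ha h2, mul_nonneg hb k2]
    · simp only [PiLp.add_apply, PiLp.smul_apply, smul_eq_mul]
      nlinarith [mul_le_mul_of_nonneg_left h3 ha, mul_le_mul_of_nonneg_left k3 hb]
    · simp only [PiLp.add_apply, PiLp.smul_apply, smul_eq_mul]
      nlinarith [mul_le_mul_of_nonneg_left h4 ha, mul_le_mul_of_nonneg_left k4 hb]
    · simp only [PiLp.add_apply, PiLp.smul_apply, smul_eq_mul]
      rcases ha.eq_or_lt with ha0 | ha0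
      · have hb1 : b = 1 := by linarith
        subst hb1
        rw [← ha0]
        simpa using k5
      rcases hb.eq_or_lt with hb0 | hb0
      · have ha1 : a = 1 := by linarith
        subst ha1
        rw [← hb0]
        simpa using h5
      rcases h5 with h5 | h5
      · left; nlinarith [mul_pos ha0 h5, mul_nonneg hb hzq]
      rcases k5 with k5 | k5
      · left; nlinarith [mul_pos hb0 k5, mul_nonneg ha hzp]
      · right
        refine ⟨by rw [h5.1, k5.1]; ring, ?_, ?_⟩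
        · nlinarith [mul_nonneg ha (neg_nonneg.2 h5.2.1), mul_nonneg hb (neg_nonneg.2 k5.2.1)]
        · nlinarith [mul_le_mul_of_nonneg_left h5.2.2 ha, mul_le_mul_of_nonneg_left k5.2.2 hb]
  · refine ⟨!₂[0, -1, 17 / 8], ?_⟩
    refine interior_maximal (t := {p : E 3 | p 1 < 0 ∧ 0 < p 0 - 2 * p 1 ∧
      12 < p 0 - 4 * p 1 + 4 * p 2 ∧ p 0 - 4 * p 1 + 4 * p 2 < 13 ∧ 0 < p 2}) ?_ ?_ ?_
    · rintro p ⟨h1, h2, h3, h4, h5⟩
      exact ⟨h1.le, h2.le, h3.le, h4.le, Or.inl h5⟩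
    · refine isOpen_and ?_ (isOpen_and ?_ (isOpen_and ?_ (isOpen_and ?_ ?_))) <;>
        exact isOpen_lt (by fun_prop) (by fun_prop)
    · refine ⟨?_, ?_, ?_, ?_, ?_⟩ <;> simp <;> norm_num

/-! ### Values of the separating functionals -/

theorem S1_a {p : E 3} (hp : p ∈ S1) : p 0 - p 2 ≤ 5 / 4 ∧ p 0 - 4 * p 1 + 4 * p 2 ≤ 5 := by
  obtain ⟨h1, h2, h3, h4, h5⟩ := hp
  have hz : 0 ≤ p 2 := by rcases h5 with h | h; exacts [h.le, h.1.ge]
  constructor <;> linarith

theorem S2_a {p : E 3} (hp : p ∈ S2) : 2 ≤ p 0 - p 2 ∧ p 0 - 4 * p 1 + 4 * p 2 ≤ 21 / 2 := by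
  obtain ⟨h1, h2, h3, h4, h5⟩ := hp
  constructor <;> linarith

theorem S3_a {p : E 3} (hp : p ∈ S3) : 12 ≤ p 0 - 4 * p 1 + 4 * p 2 := hp.2.2.1

/-- The functional `p ↦ a p 0 + b p 1 + c p 2`. -/
noncomputable def lin (a b c : ℝ) : E 3 →ₗ[ℝ] ℝ where
  toFun p := a * p 0 + b * p 1 + c * p 2
  map_add' p q := by simp only [PiLp.add_apply]; ring
  map_smul' r p := by simp only [PiLp.smul_apply, smul_eq_mul, RingHom.id_apply]; ring

theorem lin_ne {a b c : ℝ} (ha : a ≠ 0) : lin a b c ≠ 0 := by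
  intro h
  have := congrArg (fun f => f (!₂[1, 0, 0] : E 3)) h
  simp [lin] at this
  exact ha this

theorem sep_symm {S T : Set (E 3)} (h : StrictlySeparated S T) : StrictlySeparated T S := by
  obtain ⟨f, c, hf, h1, h2⟩ := h
  exact ⟨-f, -c, neg_ne_zero.2 hf, fun x hx => by simpa using h2 x hx,
    fun x hx => by simpa using h1 x hx⟩

theorem sep12 : StrictlySeparated S1 S2 := by
  refine ⟨lin 1 0 (-1), 3 / 2, lin_ne one_ne_zero, fun p hp => ?_, fun p hp => ?_⟩
  · have := (S1_a hp).1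
    show 1 * p 0 + 0 * p 1 + -1 * p 2 < 3 / 2
    linarith
  · have := (S2_a hp).1
    show 3 / 2 < 1 * p 0 + 0 * p 1 + -1 * p 2
    linarith

theorem sep13 : StrictlySeparated S1 S3 := by
  refine ⟨lin 1 (-4) 4, 11, lin_ne one_ne_zero, fun p hp => ?_, fun p hp => ?_⟩
  · have := (S1_a hp).2
    show 1 * p 0 + -4 * p 1 + 4 * p 2 < 11
    linarith
  · have := S3_a hp
    show 11 < 1 * p 0 + -4 * p 1 + 4 * p 2
    linarith

theorem sep23 : StrictlySeparated S2 S3 := by
  refine ⟨lin 1 (-4) 4, 11, lin_ne one_ne_zero, fun p hp => ?_, fun p hp => ?_⟩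
  · have := (S2_a hp).2
    show 1 * p 0 + -4 * p 1 + 4 * p 2 < 11
    linarith
  · have := S3_a hp
    show 11 < 1 * p 0 + -4 * p 1 + 4 * p 2
    linarith

/-- The family of the three bodies. -/
def S : Fin 3 → Set (E 3) := ![S1, S2, S3]

theorem mem_iUnion_S {p : E 3} : p ∈ ⋃ i, S i ↔ p ∈ S1 ∨ p ∈ S2 ∨ p ∈ S3 := by
  rw [Set.mem_iUnion]
  constructor
  · rintro ⟨i, hi⟩
    fin_cases i
    · exact Or.inl hi
    · exact Or.inr (Or.inl hi)
    · exact Or.inr (Or.inr hi)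
  · rintro (h | h | h)
    exacts [⟨0, h⟩, ⟨1, h⟩, ⟨2, h⟩]

/-! ### The origin lies in the visual hull -/

theorem cover_up (v : E 3) (hv : 0 < v 2) : ∃ t : ℝ, t • v ∈ ⋃ i, S i := by
  by_cases h1 : 0 ≤ v 1 ∧ 0 ≤ v 0 + 2 * v 1
  · have hd : 0 < v 0 + 3 * v 1 + v 2 := by linarith [h1.1, h1.2]
    refine ⟨(v 0 + 3 * v 1 + v 2)⁻¹, mem_iUnion_S.2 (Or.inl ?_)⟩
    have hi : 0 < (v 0 + 3 * v 1 + v 2)⁻¹ := inv_pos.2 hd
    have he : (v 0 + 3 * v 1 + v 2)⁻¹ * (v 0 + 3 * v 1 + v 2) = 1 := inv_mul_cancel₀ hd.ne'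
    set t := (v 0 + 3 * v 1 + v 2)⁻¹
    refine ⟨?_, ?_, ?_, ?_, Or.inl ?_⟩ <;>
      simp only [PiLp.smul_apply, smul_eq_mul]
    · exact mul_nonneg hi.le h1.1
    · nlinarith [mul_nonneg hi.le h1.2]
    · linarith
    · linarith
    · exact mul_pos hi hv
  by_cases h2 : v 1 ≤ 0 ∧ 0 ≤ v 0 - 2 * v 1
  · have hd : 0 < v 0 - 4 * v 1 + 4 * v 2 := by linarith [h2.1, h2.2]
    refine ⟨12 * (v 0 - 4 * v 1 + 4 * v 2)⁻¹, mem_iUnion_S.2 (Or.inr (Or.inr ?_))⟩
    have hi : 0 < (v 0 - 4 * v 1 + 4 * v 2)⁻¹ := inv_pos.2 hd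
    have he : (v 0 - 4 * v 1 + 4 * v 2)⁻¹ * (v 0 - 4 * v 1 + 4 * v 2) = 1 :=
      inv_mul_cancel₀ hd.ne'
    set t := (v 0 - 4 * v 1 + 4 * v 2)⁻¹
    refine ⟨?_, ?_, ?_, ?_, Or.inl ?_⟩ <;>
      simp only [PiLp.smul_apply, smul_eq_mul]
    · nlinarith [mul_nonneg hi.le (neg_nonneg.2 h2.1)]
    · nlinarith [mul_nonneg hi.le h2.2]
    · linarith
    · linarith
    · positivity
  · have hv1 : v 0 < 0 ∧ -(v 0) ≥ v 1 ∧ -(v 0) ≥ -(v 1) := by
      rcases le_or_gt 0 (v 1) with h | h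
      · have : v 0 + 2 * v 1 < 0 := by
          by_contra hc
          exact h1 ⟨h, not_lt.1 hc⟩
        refine ⟨by linarith, by linarith, by linarith⟩
      · have : v 0 - 2 * v 1 < 0 := by
          by_contra hc
          exact h2 ⟨h.le, not_lt.1 hc⟩
        refine ⟨by linarith, by linarith, by linarith⟩
    obtain ⟨k1, k2, k3⟩ := hv1
    have hd : 0 < v 2 - v 0 := by linarith
    refine ⟨-(2 * (v 2 - v 0)⁻¹), mem_iUnion_S.2 (Or.inr (Or.inl ?_))⟩
    have hi : 0 < (v 2 - v 0)⁻¹ := inv_pos.2 hd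
    have he : (v 2 - v 0)⁻¹ * (v 2 - v 0) = 1 := inv_mul_cancel₀ hd.ne'
    set t := (v 2 - v 0)⁻¹
    refine ⟨?_, ?_, ?_, ?_, ?_⟩ <;>
      simp only [PiLp.smul_apply, smul_eq_mul]
    · nlinarith [mul_pos hi hv]
    · nlinarith [mul_nonneg hi.le (show 0 ≤ -(v 0) - v 1 by linarith)]
    · nlinarith [mul_nonneg hi.le (show 0 ≤ -(v 0) + v 1 by linarith)]
    · linarith
    · linarith

theorem cover_flat (v : E 3) (h2 : v 2 = 0) (hv : v 0 ≤ 0) (hv' : v 0 = 0 → 0 < v 1) :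
    ∃ t : ℝ, t • v ∈ ⋃ i, S i := by
  rcases le_or_gt |v 1| |v 0| with h | h
  · have h0 : v 0 < 0 := by
      rcases hv.eq_or_lt with h0 | h0
      · have := hv' h0
        rw [h0, abs_zero, abs_of_pos this] at h
        linarith
      · exact h0
    rw [abs_of_neg h0, abs_le] at h
    refine ⟨2 * (v 0)⁻¹, mem_iUnion_S.2 (Or.inr (Or.inl ?_))⟩
    have hi : (v 0)⁻¹ < 0 := inv_lt_zero.2 h0
    have he : (v 0)⁻¹ * v 0 = 1 := inv_mul_cancel₀ h0.ne
    set t := (v 0)⁻¹
    refine ⟨?_, ?_, ?_, ?_, ?_⟩ <;>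
      simp only [PiLp.smul_apply, smul_eq_mul, h2]
    · simp
    · nlinarith [h.1, h.2, mul_nonneg (neg_nonneg.2 hi.le) (show 0 ≤ -(v 0) - v 1 by linarith [h.2])]
    · nlinarith [h.1, h.2, mul_nonneg (neg_nonneg.2 hi.le) (show 0 ≤ -(v 0) + v 1 by linarith [h.1])]
    · linarith
    · linarith
  · rcases le_or_gt 0 (v 1) with h1 | h1
    · -- hits the first body
      rw [abs_of_nonneg h1, abs_of_nonpos hv] at h
      have hd : 0 < v 0 + 3 * v 1 := by linarith
      refine ⟨(v 0 + 3 * v 1)⁻¹, mem_iUnion_S.2 (Or.inl ?_)⟩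
      have hi : 0 < (v 0 + 3 * v 1)⁻¹ := inv_pos.2 hd
      have he : (v 0 + 3 * v 1)⁻¹ * (v 0 + 3 * v 1) = 1 := inv_mul_cancel₀ hd.ne'
      set t := (v 0 + 3 * v 1)⁻¹
      refine ⟨?_, ?_, ?_, ?_, Or.inr ⟨?_, ?_, ?_⟩⟩ <;>
        simp only [PiLp.smul_apply, smul_eq_mul, h2]
      · exact mul_nonneg hi.le h1
      · nlinarith [mul_nonneg hi.le (show 0 ≤ v 0 + 2 * v 1 by linarith)]
      · linarith
      · linarith
      · simp
      · nlinarith [mul_nonneg hi.le (neg_nonneg.2 hv)]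
      · nlinarith [mul_nonneg hi.le (show 0 ≤ v 0 + v 1 by linarith)]
    · -- hits the third body
      rw [abs_of_neg h1, abs_of_nonpos hv] at h
      have hd : 0 < v 0 - 4 * v 1 := by linarith
      refine ⟨12 * (v 0 - 4 * v 1)⁻¹, mem_iUnion_S.2 (Or.inr (Or.inr ?_))⟩
      have hi : 0 < (v 0 - 4 * v 1)⁻¹ := inv_pos.2 hd
      have he : (v 0 - 4 * v 1)⁻¹ * (v 0 - 4 * v 1) = 1 := inv_mul_cancel₀ hd.ne'
      set t := (v 0 - 4 * v 1)⁻¹
      refine ⟨?_, ?_, ?_, ?_, Or.inr ⟨?_, ?_, ?_⟩⟩ <;>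
        simp only [PiLp.smul_apply, smul_eq_mul, h2]
      · nlinarith [mul_nonneg hi.le (neg_nonneg.2 h1.le)]
      · nlinarith [mul_nonneg hi.le (show 0 ≤ v 0 - 2 * v 1 by linarith)]
      · linarith
      · linarith
      · simp
      · nlinarith [mul_nonneg hi.le (neg_nonneg.2 hv)]
      · nlinarith [mul_nonneg hi.le (show 0 ≤ v 0 - v 1 by linarith)]

theorem zero_mem : (0 : E 3) ∈ visualHull (⋃ i, S i) := by
  rw [mem_visualHull]
  intro v hv
  simp only [zero_add]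
  rcases lt_trichotomy (v 2) 0 with h | h | h
  · obtain ⟨t, ht⟩ := cover_up (-v) (by simpa using h)
    exact ⟨-t, by simpa using ht⟩
  · by_cases h0 : v 0 < 0 ∨ (v 0 = 0 ∧ 0 < v 1)
    · refine cover_flat v h ?_ ?_
      · rcases h0 with h0 | h0
        exacts [h0.le, h0.1.le]
      · intro h00
        rcases h0 with h0 | h0
        · exact absurd h0 (by rw [h00]; exact lt_irrefl _)
        · exact h0.2
    · obtain ⟨t, ht⟩ := cover_flat (-v) (by simpa using h) (by
          have : 0 ≤ v 0 := by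
            by_contra hc
            exact h0 (Or.inl (not_le.1 hc))
          simpa using this) (by
          intro h00
          have h00' : v 0 = 0 := by simpa using h00
          have h1 : v 1 ≤ 0 := by
            by_contra hc
            exact h0 (Or.inr ⟨h00', not_le.1 hc⟩)
          have h1' : v 1 ≠ 0 := by
            intro h1'
            apply hv
            ext i
            fin_cases i
            exacts [h00', h1', h]
          have : 0 < -(v 1) := by
            rcases h1.eq_or_lt with h2 | h2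
            · exact absurd h2 h1'
            · linarith
          simpa using this)
      exact ⟨-t, by simpa using ht⟩
  · exact cover_up v h

/-! ### The origin is isolated, and the three bodies lie in different parts -/

theorem ne_zero_of {a b c : ℝ} (h : a ≠ 0 ∨ b ≠ 0) : (!₂[a, b, c] : E 3) ≠ 0 := by
  intro h0
  rcases h with h | h
  · apply h
    have := congrArg (fun p : E 3 => p 0) h0
    simpa using this
  · apply h
    have := congrArg (fun p : E 3 => p 1) h0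
    simpa using this

theorem isolated {x : E 3} (hx : x ∈ visualHull (⋃ i, S i)) (h0 : |x 0| < 1 / 100)
    (h1 : |x 1| < 1 / 100) (h2 : |x 2| < 1 / 100) : x = 0 := by
  rw [mem_visualHull] at hx
  rw [abs_lt] at h0 h1 h2
  obtain ⟨a0, b0⟩ := h0
  obtain ⟨a1, b1⟩ := h1
  obtain ⟨a2, b2⟩ := h2
  rcases lt_trichotomy (x 2) 0 with h | h | h
  · exfalso
    obtain ⟨t, ht⟩ := hx !₂[0, 1, 0] (ne_zero_of (Or.inr one_ne_zero))
    rw [mem_iUnion_S] at ht
    rcases ht with ht | ht | ht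
    · obtain ⟨k1, k2, k3, k4, k5⟩ := ht
      simp at k1 k2 k3 k4 k5
      rcases k5 with k5 | k5
      · linarith
      · linarith [k5.1]
    · obtain ⟨k1, k2, k3, k4, k5⟩ := ht
      simp at k1 k2 k3 k4 k5
      linarith
    · obtain ⟨k1, k2, k3, k4, k5⟩ := ht
      simp at k1 k2 k3 k4 k5
      rcases k5 with k5 | k5
      · linarith
      · linarith [k5.1]
  · -- in the plane
    have c1 : x 0 ≤ 0 := by
      by_contra hc
      obtain ⟨t, ht⟩ := hx !₂[0, 1, 0] (ne_zero_of (Or.inr one_ne_zero))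
      rw [mem_iUnion_S] at ht
      rcases ht with ht | ht | ht
      · obtain ⟨k1, k2, k3, k4, k5⟩ := ht
        simp at k1 k2 k3 k4 k5
        rcases k5 with k5 | k5
        · linarith
        · exact hc k5.2.1
      · obtain ⟨k1, k2, k3, k4, k5⟩ := ht
        simp at k1 k2 k3 k4 k5
        linarith
      · obtain ⟨k1, k2, k3, k4, k5⟩ := ht
        simp at k1 k2 k3 k4 k5
        rcases k5 with k5 | k5
        · linarith
        · exact hc k5.2.1
    have c2 : 0 ≤ x 0 + x 1 := by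
      by_contra hc
      obtain ⟨t, ht⟩ := hx !₂[1, -1, 0] (ne_zero_of (Or.inl one_ne_zero))
      rw [mem_iUnion_S] at ht
      rcases ht with ht | ht | ht
      · obtain ⟨k1, k2, k3, k4, k5⟩ := ht
        simp at k1 k2 k3 k4 k5
        rcases k5 with k5 | k5
        · linarith
        · linarith [k5.2.2]
      · obtain ⟨k1, k2, k3, k4, k5⟩ := ht
        simp at k1 k2 k3 k4 k5
        linarith
      · obtain ⟨k1, k2, k3, k4, k5⟩ := ht
        simp at k1 k2 k3 k4 k5
        rcases k5 with k5 | k5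
        · linarith
        · linarith [k5.2.1, k5.2.2]
    have c3 : x 1 ≤ x 0 := by
      by_contra hc
      obtain ⟨t, ht⟩ := hx !₂[1, 1, 0] (ne_zero_of (Or.inl one_ne_zero))
      rw [mem_iUnion_S] at ht
      rcases ht with ht | ht | ht
      · obtain ⟨k1, k2, k3, k4, k5⟩ := ht
        simp at k1 k2 k3 k4 k5
        rcases k5 with k5 | k5
        · linarith
        · linarith [k5.2.1, k5.2.2]
      · obtain ⟨k1, k2, k3, k4, k5⟩ := ht
        simp at k1 k2 k3 k4 k5
        linarith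
      · obtain ⟨k1, k2, k3, k4, k5⟩ := ht
        simp at k1 k2 k3 k4 k5
        rcases k5 with k5 | k5
        · linarith
        · linarith [k5.2.1, k5.2.2]
    have e0 : x 0 = 0 := by linarith
    have e1 : x 1 = 0 := by linarith
    ext i
    fin_cases i
    exacts [e0, e1, h]
  · exfalso
    obtain ⟨t, ht⟩ := hx !₂[4, -1, -(x 2)] (ne_zero_of (Or.inl (by norm_num)))
    rw [mem_iUnion_S] at ht
    rcases ht with ht | ht | ht
    · obtain ⟨k1, k2, k3, k4, k5⟩ := ht
      simp at k1 k2 k3 k4 k5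
      nlinarith
    · obtain ⟨k1, k2, k3, k4, k5⟩ := ht
      simp at k1 k2 k3 k4 k5
      have : 1 ≤ t := by
        by_contra hc
        nlinarith [not_le.1 hc]
      nlinarith
    · obtain ⟨k1, k2, k3, k4, k5⟩ := ht
      simp at k1 k2 k3 k4 k5
      have : t ≤ 1 := by
        by_contra hc
        have hc' := not_le.1 hc
        have : x 2 + -(t * x 2) < 0 := by nlinarith
        rcases k5 with k5 | k5
        · linarith
        · linarith [k5.1]
      nlinarith

theorem not_on_third {x : E 3} (hx : x ∈ visualHull (⋃ i, S i)) :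
    x 0 - 4 * x 1 + 4 * x 2 ≠ 11 := by
  intro h
  rw [mem_visualHull] at hx
  obtain ⟨t, ht⟩ := hx !₂[4, 1, 0] (ne_zero_of (Or.inl (by norm_num)))
  rw [mem_iUnion_S] at ht
  rcases ht with ht | ht | ht
  · have := (S1_a ht).2
    simp at this
    linarith
  · have := (S2_a ht).2
    simp at this
    linarith
  · have := S3_a ht
    simp at this
    linarith

theorem not_on_second {x : E 3} (hx : x ∈ visualHull (⋃ i, S i))
    (h11 : x 0 - 4 * x 1 + 4 * x 2 < 11) : x 0 - x 2 ≠ 3 / 2 := by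
  intro h
  rw [mem_visualHull] at hx
  obtain ⟨t, ht⟩ := hx !₂[4, 5, 4] (ne_zero_of (Or.inl (by norm_num)))
  rw [mem_iUnion_S] at ht
  rcases ht with ht | ht | ht
  · have := (S1_a ht).1
    simp at this
    linarith
  · have := (S2_a ht).1
    simp at this
    linarith
  · have := S3_a ht
    simp at this
    linarith

/-! ### Counting components -/

open Classical in
/-- A locally constant function on the visual hull with four values. -/
noncomputable def g (x : E 3) : Fin 4 :=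
  if x = 0 then 3 else if 11 < x 0 - 4 * x 1 + 4 * x 2 then 2 else
    if 3 / 2 < x 0 - x 2 then 1 else 0

theorem subset_visualHull {n : ℕ} (T : Set (E n)) : T ⊆ visualHull T := by
  intro x hx
  rw [mem_visualHull]
  intro v _
  exact ⟨0, by simpa using hx⟩

theorem g_locConst : IsLocallyConstant (fun x : visualHull (⋃ i, S i) => g (x : E 3)) := by
  rw [IsLocallyConstant.iff_eventually_eq]
  rintro ⟨x, hx⟩
  have hc0 : Continuous fun y : visualHull (⋃ i, S i) => (y : E 3) 0 := by fun_prop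
  have hc1 : Continuous fun y : visualHull (⋃ i, S i) => (y : E 3) 1 := by fun_prop
  have hc2 : Continuous fun y : visualHull (⋃ i, S i) => (y : E 3) 2 := by fun_prop
  by_cases h0 : x = 0
  · subst h0
    have hU : IsOpen {y : visualHull (⋃ i, S i) | |(y : E 3) 0| < 1 / 100 ∧
        |(y : E 3) 1| < 1 / 100 ∧ |(y : E 3) 2| < 1 / 100} :=
      isOpen_and (isOpen_lt (by fun_prop) (by fun_prop))
        (isOpen_and (isOpen_lt (by fun_prop) (by fun_prop))
          (isOpen_lt (by fun_prop) (by fun_prop)))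
    filter_upwards [hU.mem_nhds (by simp)] with y hy
    have : (y : E 3) = 0 := isolated y.2 hy.1 hy.2.1 hy.2.2
    rw [this]
  · have hne : ∀ᶠ y : visualHull (⋃ i, S i) in 𝓝 ⟨x, hx⟩, (y : E 3) ≠ 0 := by
      have : IsOpen {y : visualHull (⋃ i, S i) | (y : E 3) ≠ 0} :=
        isOpen_compl_singleton.preimage continuous_subtype_val
      exact this.mem_nhds h0
    rcases lt_or_gt_of_ne (not_on_third hx) with h1 | h1
    · have hl : ∀ᶠ y : visualHull (⋃ i, S i) in 𝓝 ⟨x, hx⟩,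
          (y : E 3) 0 - 4 * (y : E 3) 1 + 4 * (y : E 3) 2 < 11 :=
        (isOpen_lt (by fun_prop) (by fun_prop)).mem_nhds h1
      rcases lt_or_gt_of_ne (not_on_second hx h1) with h2 | h2
      · have hm : ∀ᶠ y : visualHull (⋃ i, S i) in 𝓝 ⟨x, hx⟩,
            (y : E 3) 0 - (y : E 3) 2 < 3 / 2 :=
          (isOpen_lt (by fun_prop) (by fun_prop)).mem_nhds h2
        filter_upwards [hne, hl, hm] with y e1 e2 e3
        simp only [g]
        rw [if_neg e1, if_neg e2.not_gt, if_neg e3.not_gt, if_neg h0, if_neg h1.not_gt,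
          if_neg h2.not_gt]
      · have hm : ∀ᶠ y : visualHull (⋃ i, S i) in 𝓝 ⟨x, hx⟩,
            3 / 2 < (y : E 3) 0 - (y : E 3) 2 :=
          (isOpen_lt (by fun_prop) (by fun_prop)).mem_nhds h2
        filter_upwards [hne, hl, hm] with y e1 e2 e3
        simp only [g]
        rw [if_neg e1, if_neg e2.not_gt, if_pos e3, if_neg h0, if_neg h1.not_gt,
          if_pos h2]
    · have hl : ∀ᶠ y : visualHull (⋃ i, S i) in 𝓝 ⟨x, hx⟩,
          11 < (y : E 3) 0 - 4 * (y : E 3) 1 + 4 * (y : E 3) 2 :=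
        (isOpen_lt (by fun_prop) (by fun_prop)).mem_nhds h1
      filter_upwards [hne, hl] with y e1 e2
      simp only [g]
      rw [if_neg e1, if_pos e2, if_neg h0, if_pos h1]

theorem four_le : 4 ≤ ENat.card (ConnectedComponents (visualHull (⋃ i, S i))) := by
  have hcont : Continuous (fun x : visualHull (⋃ i, S i) => g (x : E 3)) := g_locConst.continuous
  have hsurj : Function.Surjective hcont.connectedComponentsLift := by
    intro k
    have key : ∀ p : E 3, p ∈ ⋃ i, S i → g p = k → ∃ c, hcont.connectedComponentsLift c = k := by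
      intro p hp hk
      exact ⟨ConnectedComponents.mk ⟨p, subset_visualHull _ hp⟩, hk⟩
    fin_cases k
    · refine key !₂[0, 1 / 10, 9 / 10] (mem_iUnion_S.2 (Or.inl ?_)) ?_
      · refine ⟨?_, ?_, ?_, ?_, Or.inl ?_⟩ <;> simp <;> norm_num
      · rw [g, if_neg (ne_zero_of (Or.inr (by norm_num))), if_neg, if_neg]
        · rfl
        · simp; norm_num
        · simp; norm_num
    · refine key !₂[2, 0, 0] (mem_iUnion_S.2 (Or.inr (Or.inl ?_))) ?_
      · refine ⟨?_, ?_, ?_, ?_, ?_⟩ <;> simp <;> norm_num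
      · rw [g, if_neg (ne_zero_of (Or.inl (by norm_num))), if_neg, if_pos]
        · rfl
        · simp; norm_num
        · simp; norm_num
    · refine key !₂[0, -1, 17 / 8] (mem_iUnion_S.2 (Or.inr (Or.inr ?_))) ?_
      · refine ⟨?_, ?_, ?_, ?_, Or.inl ?_⟩ <;> simp <;> norm_num
      · rw [g, if_neg (ne_zero_of (Or.inr (by norm_num))), if_pos]
        · rfl
        · simp; norm_num
    · refine ⟨ConnectedComponents.mk ⟨0, zero_mem⟩, ?_⟩
      show g 0 = 3
      simp [g]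
  obtain ⟨f, hf⟩ := hsurj.hasRightInverse
  have h := ENat.card_le_card_of_injective hf.injective
  simpa using h

/-- There are three pairwise strictly separated bodies (bounded convex sets with nonempty
interior) in Euclidean 3-space such that the visual hull of their union has at least four
connected components. -/
theorem result : ∃ S : Fin 3 → Set (E 3), (∀ i, IsBody (S i)) ∧
    (∀ i j, i ≠ j → StrictlySeparated (S i) (S j)) ∧
    4 ≤ ENat.card (ConnectedComponents (visualHull (⋃ i, S i))) := by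
  refine ⟨S, ?_, ?_, four_le⟩
  · intro i
    fin_cases i
    exacts [isBody_S1, isBody_S2, isBody_S3]
  · intro i j hij
    fin_cases i <;> fin_cases j
    · exact absurd rfl hij
    · exact sep12
    · exact sep13
    · exact sep_symm sep12
    · exact absurd rfl hij
    · exact sep23
    · exact sep_symm sep13
    · exact sep_symm sep23
    · exact absurd rfl hij

end Pool.Agent.Results.MP_1d6f1e_gt.FourComponents
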